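import Pool.Agent.H560R3.GB.Tup3
import Pool.Agent.R501.CP4
import Pool.Agent.R482.Vm
import Pool.Agent.R482.Sing

set_option autoImplicit false

/-! Joint correlations of the von Mangoldt and Liouville functions: all the shifts are members of families of nearly
minimal additive energy. -/

namespace Pool.Agent.P8H14.J1
open Finset
open Pool.Agent.H373R2.T7 (energy exI liR singZ tupleCount avg_coord ev_L' ev_log')

/-- the Liouville side -/
theorem lam_side (p B C κ U : ℕ) : ∃ N₀ : ℕ, ∀ N : ℕ, N₀ ≤ N → ∀ t : ℕ, (2 : ℝ) ^ t ≤ Real.log N ^ κ →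
    ∀ (y : Fin t → ℕ) (b : Fin t → ℕ → ℤ), (∀ j, ∀ m ∈ Icc 1 (y j), |b j m| ≤ B * N) →
    (∀ j, (energy p (y j) (b j) : ℝ) * N ≤ Real.log N ^ C * (y j : ℝ) ^ (2 * p)) →
    ∀ α : Fin t → ℕ, (∀ j, 1 ≤ α j) → ∀ L : ℕ, (L : ℝ) ≤ Real.log N ^ κ →
    ∀ g : Fin L → ℕ → ℂ, (∀ l n, 1 ≤ n → n ≤ B * N → ‖g l n‖ ≤ Real.log N ^ κ) →
    ∀ E : (Fin t → ℕ) → Prop, [DecidablePred E] →
    (∀ m ∈ Fintype.piFinset (fun j => Icc 1 (y j)), E m → ∃ l, ∃ I : Finset (Fin t), I.Nonempty ∧ ∃ X : ℕ,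
      (∀ i ∈ I, α i * X ≤ B * N) ∧ (N : ℝ) / Real.log N ^ U <
        ‖∑ n ∈ Icc 1 X, g l n * ∏ i ∈ I, exI liR (((α i * n : ℕ) : ℤ) + b i (m i))‖) →
    (((Fintype.piFinset (fun j => Icc 1 (y j))).filter E).card : ℝ) ≤ (∏ j, (y j : ℝ)) / Real.log N ^ U := by
  classical
  obtain ⟨n0, h0⟩ := Pool.Agent.R459.fam_near liR Pool.Agent.W93.LM.nice_liR.1
    Pool.Agent.W93.LM.nice_liR.2.1 p B C (2 * κ) 0 (U + κ)
  obtain ⟨n1, h1⟩ := ev_L' 1
  refine ⟨n0 + n1 + 1, fun N hN t ht y b hb hE α hα L hL g hg E _ hEm => ?_⟩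
  have hD1 := h1 N (by omega)
  have c0 := h0 N (by omega)
  obtain ⟨D, hDd⟩ : ∃ D, D = Real.log (N : ℝ) := ⟨_, rfl⟩
  rw [← hDd] at hD1 ht hE hL hg hEm c0 ⊢
  have hD0 : 0 < D := by linarith
  have hUU : ∀ a b : ℕ, a ≤ b → (N : ℝ) / D ^ b ≤ N / D ^ a := by
    intro a b hab
    apply div_le_div_of_nonneg_left (Nat.cast_nonneg _) (by positivity)
    exact pow_le_pow_right₀ hD1 hab
  obtain ⟨Box, hBox⟩ : ∃ Box, Box = Fintype.piFinset (fun j => Icc 1 (y j)) := ⟨_, rfl⟩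
  rw [← hBox] at hEm ⊢
  obtain ⟨F, hF⟩ : ∃ F : Fin t → (Fin t → ℕ) → Prop, F = fun i m => ∃ l, ∃ I : Finset (Fin t), i ∈ I ∧ ∃ X : ℕ,
      (∀ i ∈ I, α i * X ≤ B * N) ∧ (N : ℝ) / D ^ U <
        ‖∑ n ∈ Icc 1 X, g l n * ∏ i ∈ I, exI liR (((α i * n : ℕ) : ℤ) + b i (m i))‖ := ⟨_, rfl⟩
  have hexI : ∀ m : ℤ, ‖exI liR m‖ ≤ 1 := by
    intro m
    unfold exI
    split_ifs
    · exact Pool.Agent.W93.LM.nice_liR.1 _
    · rw [norm_zero]; exact zero_le_one
  -- one coordinate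
  have hone : ∀ i : Fin t, ∀ m : Fin t → ℕ,
      (((Icc 1 (y i)).filter (fun v => F i (Function.update m i v))).card : ℝ) ≤ y i / D ^ (U + κ) := by
    intro i m
    obtain ⟨e, -⟩ : ∃ e : (Finset (Fin t) × Fin L) ≃ Fin (2 ^ t * L), True := by
      refine ⟨(Fintype.equivFinOfCardEq ?_), trivial⟩
      simp
    refine c0 (y i) (b i) (hb i) (hE i) (2 ^ t * L) (by
      push_cast
      calc (2 : ℝ) ^ t * L ≤ D ^ κ * D ^ κ := mul_le_mul ht hL (Nat.cast_nonneg _) (by positivity)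
        _ = D ^ (2 * κ) := by ring) (fun _ => α i)
      (fun r n => if hr : r < 2 ^ t * L then g (e.symm ⟨r, hr⟩).2 n *
        ∏ i' ∈ (e.symm ⟨r, hr⟩).1, exI liR (((α i' * n : ℕ) : ℤ) + b i' (m i')) else 0)
      (fun _ _ => hα i) (by
        intro r hr n hn1 hn2
        rw [dif_pos hr, norm_mul]
        have g1 : ‖∏ i' ∈ (e.symm ⟨r, hr⟩).1, exI liR (((α i' * n : ℕ) : ℤ) + b i' (m i'))‖ ≤ 1 := by
          rw [norm_prod]
          exact prod_le_one (fun _ _ => norm_nonneg _) (fun i _ => hexI _)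
        have g2 : n ≤ B * N := le_trans (Nat.le_mul_of_pos_left _ (hα i)) hn2
        calc ‖g (e.symm ⟨r, hr⟩).2 n‖ * _ ≤ D ^ κ * 1 := mul_le_mul (hg _ n hn1 g2) g1 (norm_nonneg _) (by positivity)
          _ ≤ D ^ (2 * κ) := by rw [mul_one]; exact pow_le_pow_right₀ hD1 (by omega))
      (fun v => F i (Function.update m i v)) ?_
    intro v _ hv
    rw [hF] at hv
    obtain ⟨l, I, hiI, X, hX, hbig⟩ := hv
    refine ⟨0, by simp, e (I.erase i, l), (e (I.erase i, l)).2, X, hX i hiI, ?_⟩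
    refine lt_of_le_of_lt (hUU U (U + κ) (by omega)) (lt_of_lt_of_eq hbig ?_)
    congr 1
    apply sum_congr rfl
    intro n _
    rw [dif_pos (e (I.erase i, l)).2]
    simp only [Fin.eta, Equiv.symm_apply_apply]
    rw [mul_assoc]
    congr 1
    rw [← mul_prod_erase I _ hiI, Function.update_self, mul_comm, add_zero]
    congr 1
    apply prod_congr rfl
    intro i' hi'
    rw [Function.update_of_ne (ne_of_mem_erase hi')]
  have hprod0 : 0 ≤ ∏ j, (y j : ℝ) := prod_nonneg fun j _ => Nat.cast_nonneg _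
  have hcard : (Box.card : ℝ) = ∏ j, (y j : ℝ) := by
    rw [hBox, Fintype.card_piFinset]
    push_cast
    apply prod_congr rfl
    intro j _
    simp
  have hcoord : ∀ i : Fin t, ((Box.filter (F i)).card : ℝ) ≤ (∏ j, (y j : ℝ)) / D ^ (U + κ) := by
    intro i
    rcases Nat.eq_zero_or_pos (y i) with hy | hy
    · have h5 : Box = ∅ := by
        rw [hBox]
        apply Finset.eq_empty_of_forall_notMem
        intro m hm
        have h6 := Fintype.mem_piFinset.1 hm i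
        rw [hy] at h6
        simp at h6
      rw [h5]
      simp only [filter_empty, card_empty, Nat.cast_zero]
      positivity
    · have h5 := avg_coord (fun j => Icc 1 (y j)) i (fun m => if F i m then (1 : ℝ) else 0)
      rw [← hBox] at h5
      have h6 : ∑ m ∈ Box, (if F i m then (1 : ℝ) else 0) = ((Box.filter (F i)).card : ℝ) := by
        rw [← sum_filter, sum_const, nsmul_eq_mul, mul_one]
      have h7 : ((Icc 1 (y i)).card : ℝ) = y i := by simp
      have h8 : ∀ m ∈ Box, ∑ v ∈ Icc 1 (y i), (if F i (Function.update m i v) then (1 : ℝ) else 0) ≤ y i / D ^ (U + κ) := by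
        intro m _
        refine le_trans (le_of_eq ?_) (hone i m)
        rw [← sum_filter, sum_const, nsmul_eq_mul, mul_one]
      rw [h6, h7] at h5
      have h9 := sum_le_sum h8
      rw [h5, sum_const, nsmul_eq_mul, hcard] at h9
      have hy0 : (0 : ℝ) < y i := by exact_mod_cast hy
      have h10 : (y i : ℝ) * ((Box.filter (F i)).card : ℝ) ≤ y i * ((∏ j, (y j : ℝ)) / D ^ (U + κ)) := by
        refine h9.trans (le_of_eq ?_)
        ring
      exact le_of_mul_le_mul_left h10 hy0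
  have hsub : Box.filter E ⊆ univ.biUnion (fun i : Fin t => Box.filter (F i)) := by
    intro m hm
    rw [mem_filter] at hm
    obtain ⟨l, I, ⟨i, hi⟩, X, hX, hbig⟩ := hEm m hm.1 hm.2
    rw [mem_biUnion]
    refine ⟨i, mem_univ _, mem_filter.2 ⟨hm.1, ?_⟩⟩
    rw [hF]
    exact ⟨l, I, hi, X, hX, hbig⟩
  have h11 : ((Box.filter E).card : ℝ) ≤ ∑ i : Fin t, ((Box.filter (F i)).card : ℝ) := by
    have := (card_le_card hsub).trans card_biUnion_le
    exact_mod_cast this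
  refine h11.trans ((sum_le_sum fun i _ => hcoord i).trans ?_)
  rw [sum_const, card_univ, Fintype.card_fin, nsmul_eq_mul]
  have h12 : (t : ℝ) ≤ D ^ κ := by
    refine le_trans ?_ ht
    exact_mod_cast (Nat.lt_two_pow_self (n := t)).le
  calc (t : ℝ) * ((∏ j, (y j : ℝ)) / D ^ (U + κ)) ≤ D ^ κ * ((∏ j, (y j : ℝ)) / D ^ (U + κ)) :=
        mul_le_mul_of_nonneg_right h12 (by positivity)
    _ = _ := by rw [pow_add]; field_simp

/-- The singular series of `0, a 1, ..., a k` converges, and the correlation of the von Mangoldt function is close to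
its sum. -/
def HL (U N : ℕ) {k : ℕ} (a : Fin k → ℕ) : Prop :=
  ∃ S : ℝ, Filter.Tendsto (fun z => singZ (fun i => (a i : ℤ)) z) Filter.atTop (nhds S) ∧
    |∑ n ∈ Icc 1 N, ArithmeticFunction.vonMangoldt n * ∏ i, ArithmeticFunction.vonMangoldt (n + a i) - S * N| ≤
      N / Real.log N ^ U

open Classical in
/-- the von Mangoldt side -/
theorem vm_side (k p B C U : ℕ) (hk : 1 ≤ k) (hp : 1 ≤ p) : ∃ N₀ : ℕ, ∀ N : ℕ, N₀ ≤ N →
    ∀ (x : Fin k → ℕ) (s : Fin k → ℕ → ℕ), (∀ i, ∀ m ∈ Icc 1 (x i), s i m ≤ B * N) →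
    (∀ i, (energy p (x i) (fun m => (s i m : ℤ)) : ℝ) * N ≤ Real.log N ^ C * (x i : ℝ) ^ (2 * p)) →
    (((Fintype.piFinset (fun i => Icc 1 (x i))).filter (fun m => ¬ HL U N (fun i => s i (m i)))).card : ℝ) ≤
      (∏ i, (x i : ℝ)) / Real.log N ^ U := by
  obtain ⟨n0, h0⟩ := Pool.Agent.H560R3.GB.ftuples_full k p B C (U + 1) hk hp
  obtain ⟨n1, h1⟩ := Pool.Agent.R482.Vm.vm_of_tuple k U B
  obtain ⟨n2, h2⟩ := ev_L' 1
  refine ⟨n0 + n1 + n2 + 1, fun N hN x s hs hE => ?_⟩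
  have hL := h2 N (by omega)
  have hL0 : 0 < Real.log (N : ℝ) := by linarith
  have hp0 : 0 ≤ ∏ i, (x i : ℝ) := prod_nonneg fun i _ => Nat.cast_nonneg _
  by_cases hx : ∀ i, 1 ≤ x i
  swap
  · push Not at hx
    obtain ⟨i, hi⟩ := hx
    have h5 : Fintype.piFinset (fun i => Icc 1 (x i)) = ∅ := by
      apply Finset.eq_empty_of_forall_notMem
      intro m hm
      have h6 := Fintype.mem_piFinset.1 hm i
      rw [mem_Icc] at h6
      omega
    rw [h5]
    simp only [filter_empty, card_empty, Nat.cast_zero]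
    positivity
  refine le_trans ?_ ((h0 N (by omega) x s hx hs hE).trans ?_)
  · have hsub : (Fintype.piFinset (fun i => Icc 1 (x i))).filter (fun m => ¬ HL U N (fun i => s i (m i))) ⊆
        (Fintype.piFinset (fun i => Icc 1 (x i))).filter (fun m : Fin k → ℕ =>
        ¬ ∃ S : ℝ, Filter.Tendsto (fun z => singZ (fun i => (s i (m i) : ℤ)) z) Filter.atTop (nhds S) ∧
        |tupleCount (fun i => (s i (m i) : ℤ)) N - S * N| ≤ (N : ℝ) / Real.log N ^ (U + 1)) := by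
      intro m hm
      rw [mem_filter] at hm ⊢
      refine ⟨hm.1, fun hcon => hm.2 ?_⟩
      obtain ⟨S, hS, hS2⟩ := hcon
      exact ⟨S, hS, h1 N (by omega) (fun i => s i (m i)) (fun i => hs i _ (Fintype.mem_piFinset.1 hm.1 i)) S hS2⟩
    exact_mod_cast card_le_card hsub
  · apply div_le_div_of_nonneg_left hp0 (by positivity)
    exact pow_le_pow_right₀ hL (by omega)

theorem joint (k p B C κ U : ℕ) (hk : 1 ≤ k) (hp : 1 ≤ p) : ∃ N₀ : ℕ, ∀ N : ℕ, N₀ ≤ N →
    ∀ (x : Fin k → ℕ) (s : Fin k → ℕ → ℕ), (∀ i, ∀ m ∈ Icc 1 (x i), s i m ≤ B * N) →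
    (∀ i, (energy p (x i) (fun m => (s i m : ℤ)) : ℝ) * N ≤ Real.log N ^ C * (x i : ℝ) ^ (2 * p)) →
    ∀ t : ℕ, (2 : ℝ) ^ t ≤ Real.log N ^ κ →
    ∀ (y : Fin t → ℕ) (b : Fin t → ℕ → ℤ), (∀ j, ∀ m ∈ Icc 1 (y j), |b j m| ≤ B * N) →
    (∀ j, (energy p (y j) (b j) : ℝ) * N ≤ Real.log N ^ C * (y j : ℝ) ^ (2 * p)) →
    ∀ α : Fin t → ℕ, (∀ j, 1 ≤ α j) → ∀ L : ℕ, (L : ℝ) ≤ Real.log N ^ κ →
    ∀ θ : Fin L → ℕ → ℂ, (∀ l n, 1 ≤ n → n ≤ B * N → ‖θ l n‖ ≤ Real.log N ^ κ) →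
    ∀ E : (Fin k → ℕ) × (Fin t → ℕ) → Prop, [DecidablePred E] →
    (∀ v, E v → HL U N (fun i => s i (v.1 i)) → ∃ l, ∃ K : Finset (Fin k), ∃ I : Finset (Fin t), I.Nonempty ∧
      ∃ X : ℕ, (∀ i ∈ I, α i * X ≤ B * N) ∧ (N : ℝ) / Real.log N ^ U <
        ‖∑ n ∈ Icc 1 X, (θ l n * ∏ i ∈ K, (ArithmeticFunction.vonMangoldt (n + s i (v.1 i)) : ℂ)) *
          ∏ i ∈ I, exI liR (((α i * n : ℕ) : ℤ) + b i (v.2 i))‖) →
    ((((Fintype.piFinset (fun i => Icc 1 (x i))) ×ˢ (Fintype.piFinset (fun j => Icc 1 (y j)))).filter E).card : ℝ) ≤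
      (∏ i, (x i : ℝ)) * (∏ j, (y j : ℝ)) / Real.log N ^ U := by
  classical
  obtain ⟨n0, h0⟩ := vm_side k p B C (U + 1) hk hp
  obtain ⟨n1, h1⟩ := lam_side p B C (κ + 2 * k) (U + 1)
  obtain ⟨n2, h2⟩ := ev_L' (Real.log (2 * B + 1) + 2)
  refine ⟨n0 + n1 + n2 + 1, fun N hN x s hs hE t ht y b hb hE' α hα L hL θ hθ E _ hEv => ?_⟩
  have hN0 : (0 : ℝ) < N := by exact_mod_cast (by omega : 0 < N)
  have hD1' := h2 N (by omega)
  have c0 := h0 N (by omega)
  have c1 := h1 N (by omega)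
  obtain ⟨D, hDd⟩ : ∃ D, D = Real.log (N : ℝ) := ⟨_, rfl⟩
  have hlB : 0 ≤ Real.log (2 * B + 1) := Real.log_nonneg (by
    have : (0 : ℝ) ≤ B := Nat.cast_nonneg _
    linarith)
  have hHL : ∀ a : Fin k → ℕ, HL (U + 1) N a → HL U N a := by
    intro a ha
    obtain ⟨S, h3, h4⟩ := ha
    refine ⟨S, h3, h4.trans ?_⟩
    apply div_le_div_of_nonneg_left hN0.le (by rw [← hDd] at hD1' ⊢; have : 0 < D := by linarith
                                               positivity)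
    exact pow_le_pow_right₀ (by linarith) (by omega)
  rw [← hDd] at hD1' ht hE hE' hL hθ hEv c0 c1 ⊢
  have hD2 : 2 ≤ D := by linarith
  have hD1 : 1 ≤ D := by linarith
  have hD0 : 0 < D := by linarith
  obtain ⟨Box, hBox⟩ : ∃ Box, Box = Fintype.piFinset (fun i => Icc 1 (x i)) := ⟨_, rfl⟩
  obtain ⟨Box', hBox'⟩ : ∃ Box', Box' = Fintype.piFinset (fun j => Icc 1 (y j)) := ⟨_, rfl⟩
  obtain ⟨px, hpx⟩ : ∃ px, px = ∏ i, (x i : ℝ) := ⟨_, rfl⟩
  obtain ⟨py, hpy⟩ : ∃ py, py = ∏ j, (y j : ℝ) := ⟨_, rfl⟩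
  have hpx0 : 0 ≤ px := by rw [hpx]; exact prod_nonneg fun _ _ => Nat.cast_nonneg _
  have hpy0 : 0 ≤ py := by rw [hpy]; exact prod_nonneg fun _ _ => Nat.cast_nonneg _
  have hcx : (Box.card : ℝ) = px := by
    rw [hBox, hpx, Fintype.card_piFinset]
    push_cast
    apply prod_congr rfl
    intro j _
    simp
  have hcy : (Box'.card : ℝ) = py := by
    rw [hBox', hpy, Fintype.card_piFinset]
    push_cast
    apply prod_congr rfl
    intro j _
    simp
  have hA := c0 x s hs hE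
  rw [← hBox, ← hpx] at hA
  -- the weights
  have hΛ : ∀ m ∈ Box, ∀ i n, 1 ≤ n → n ≤ B * N →
      ‖(ArithmeticFunction.vonMangoldt (n + s i (m i)) : ℂ)‖ ≤ D ^ 2 := by
    intro m hm i n hn1 hn2
    rw [Complex.norm_real, Real.norm_eq_abs, abs_of_nonneg ArithmeticFunction.vonMangoldt_nonneg]
    refine ArithmeticFunction.vonMangoldt_le_log.trans ?_
    have g1 : ((n + s i (m i) : ℕ) : ℝ) ≤ (2 * B + 1) * N := by
      have g2 : n + s i (m i) ≤ (2 * B + 1) * N := by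
        have g3 := hs i (m i) (Fintype.mem_piFinset.1 (hBox ▸ hm) i)
        calc n + s i (m i) ≤ B * N + B * N := add_le_add hn2 g3
          _ ≤ (2 * B + 1) * N := by nlinarith
      exact_mod_cast g2
    have g4 := Real.log_le_log (by exact_mod_cast (by omega : 0 < n + s i (m i))) g1
    rw [Real.log_mul (by have : (0 : ℝ) ≤ B := Nat.cast_nonneg _
                         linarith) hN0.ne', ← hDd] at g4
    refine g4.trans ?_
    nlinarith
  obtain ⟨e, -⟩ : ∃ e : (Fin L × Finset (Fin k)) ≃ Fin (L * 2 ^ k), True := by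
    refine ⟨(Fintype.equivFinOfCardEq ?_), trivial⟩
    simp
  have hB : ∀ m ∈ Box, HL (U + 1) N (fun i => s i (m i)) →
      ((Box'.filter (fun m' => E (m, m'))).card : ℝ) ≤ py / D ^ (U + 1) := by
    intro m hm hmHL
    have h5 := c1 t (ht.trans (pow_le_pow_right₀ hD1 (by omega))) y b hb hE' α hα (L * 2 ^ k) (by
        push_cast
        rw [pow_add]
        apply mul_le_mul hL _ (by positivity) (by positivity)
        rw [pow_mul]
        apply pow_le_pow_left₀ (by norm_num)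
        nlinarith)
      (fun r n => θ (e.symm r).1 n * ∏ i ∈ (e.symm r).2, (ArithmeticFunction.vonMangoldt (n + s i (m i)) : ℂ)) (by
        intro r n hn1 hn2
        rw [norm_mul, norm_prod, pow_add]
        apply mul_le_mul (hθ _ n hn1 hn2) _ (prod_nonneg fun _ _ => norm_nonneg _) (by positivity)
        calc ∏ i ∈ (e.symm r).2, ‖(ArithmeticFunction.vonMangoldt (n + s i (m i)) : ℂ)‖ ≤ ∏ _i ∈ (e.symm r).2, D ^ 2 :=
              prod_le_prod (fun _ _ => norm_nonneg _) (fun i _ => hΛ m hm i n hn1 hn2)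
          _ = (D ^ 2) ^ (e.symm r).2.card := by rw [prod_const]
          _ ≤ (D ^ 2) ^ k := by
              apply pow_le_pow_right₀ (one_le_pow₀ hD1)
              refine (card_le_univ _).trans ?_
              rw [Fintype.card_fin]
          _ = D ^ (2 * k) := by rw [← pow_mul])
      (fun m' => E (m, m')) (by
        intro m' hm' hEm
        obtain ⟨l, K, I, hI, X, hX, hbig⟩ := hEv (m, m') hEm (hHL _ hmHL)
        refine ⟨e (l, K), I, hI, X, hX, ?_⟩
        refine lt_of_le_of_lt ?_ (lt_of_lt_of_eq hbig ?_)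
        · apply div_le_div_of_nonneg_left hN0.le (by positivity)
          exact pow_le_pow_right₀ hD1 (by omega)
        · simp only [Equiv.symm_apply_apply])
    rw [← hBox', ← hpy] at h5
    exact h5
  have hsum : (((Box ×ˢ Box').filter E).card : ℝ) = ∑ m ∈ Box, ((Box'.filter (fun m' => E (m, m'))).card : ℝ) := by
    rw [card_filter, sum_product]
    push_cast
    apply sum_congr rfl
    intro m _
    rw [card_filter]
    push_cast
    rfl
  rw [← hBox, ← hBox', ← hpx, ← hpy, hsum]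
  rw [← sum_filter_add_sum_filter_not Box (fun m => HL (U + 1) N (fun i => s i (m i)))]
  have g1 : ∑ m ∈ Box.filter (fun m => HL (U + 1) N (fun i => s i (m i))),
      ((Box'.filter (fun m' => E (m, m'))).card : ℝ) ≤ px * (py / D ^ (U + 1)) := by
    refine (sum_le_sum fun m hm => hB m (mem_filter.1 hm).1 (mem_filter.1 hm).2).trans ?_
    rw [sum_const, nsmul_eq_mul, ← hcx]
    apply mul_le_mul_of_nonneg_right _ (by positivity)
    exact_mod_cast card_filter_le _ _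
  have g2 : ∑ m ∈ Box.filter (fun m => ¬ HL (U + 1) N (fun i => s i (m i))),
      ((Box'.filter (fun m' => E (m, m'))).card : ℝ) ≤ (px / D ^ (U + 1)) * py := by
    have g3 : ∀ m ∈ Box.filter (fun m => ¬ HL (U + 1) N (fun i => s i (m i))),
        ((Box'.filter (fun m' => E (m, m'))).card : ℝ) ≤ py := by
      intro m _
      rw [← hcy]
      exact_mod_cast card_filter_le _ _
    refine (sum_le_sum g3).trans ?_
    rw [sum_const, nsmul_eq_mul]
    exact mul_le_mul_of_nonneg_right hA hpy0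
  refine (add_le_add g1 g2).trans ?_
  have g4 : px * (py / D ^ (U + 1)) + px / D ^ (U + 1) * py = (2 / D) * (px * py / D ^ U) := by
    rw [pow_succ]
    field_simp
    ring
  rw [g4]
  have g5 : 2 / D ≤ 1 := by rw [div_le_one hD0]; exact hD2
  have g6 : 0 ≤ px * py / D ^ U := by positivity
  nlinarith

end Pool.Agent.P8H14.J1
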